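import Pool.Agent.H50.ODG.Targets

/-!
# Two-orbit polyhedra with odd vertex degrees (MP_397744_co): row KNP

The classification of the triangles of mirrors.
-/

set_option autoImplicit false

namespace Pool.Agent.H29.ODG

open Pool.Agent.H57.CP Pool.Agent.H39.TO Pool.Agent.H39.OD Pool.Agent.H50.ODG

theorem mk_comm (x y : V4) : mk x y = mk y x := by
  unfold mk
  ring

theorem mk_negl (x y : V4) : mk (-x) y = -mk x y := by
  unfold mk
  simp only [Pi.neg_apply]
  ring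

theorem cn_sub (f : ℚ) : cn (1 - f) = -cn f := by
  unfold cn
  push_cast
  rw [sub_mul, one_mul, Real.cos_pi_sub]

/-- the three equations of the induction hypothesis -/
def Cls (G : Submonoid (Module.End ℝ V4)) (x y z : V4) (P Q R : H3) : Prop :=
  MT G x y z P Q R → ∀ u v w : ℚ, 0 < u → u < 1 → 0 < v → v < 1 → 0 < w → w < 1 →
    mk x y = cn u → mk x z = cn v → mk y z = cn w → Kn u v w

/-- the sum of the angles -/
theorem sum_le (hMTY : T_MTY) (hKAP : T_KAP) (hTRI : T_TRI)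
    {G : Submonoid (Module.End ℝ V4)} {x y z : V4} {P Q R : H3} (h : MT G x y z P Q R)
    {u v w : ℚ} (hu : 0 < u) (hu1 : u < 1) (hv : 0 < v) (hv1 : v < 1) (hw : 0 < w)
    (hw1 : w < 1) (e1 : mk x y = cn u) (e2 : mk x z = cn v) (e3 : mk y z = cn w) :
    u + v + w ≤ 1 := by
  have hpi := Real.pi_pos
  have p0 : ∀ r : ℚ, 0 < r → 0 < (r : ℝ) * Real.pi := fun r hr =>
    mul_pos (by exact_mod_cast hr) hpi
  have p1 : ∀ r : ℚ, r < 1 → (r : ℝ) * Real.pi < Real.pi := fun r hr => by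
    have h1 : (r : ℝ) < 1 := by exact_mod_cast hr
    nlinarith
  have k1 := hKAP G x y z P Q R h (u * Real.pi) (v * Real.pi) (w * Real.pi) (p0 u hu) (p1 u hu1)
    (p0 v hv) (p1 v hv1) e1 e2 e3
  have h2 : MT G z x y Q R P := (hMTY _ _ _ _ _ _ _ (hMTY _ _ _ _ _ _ _ h).2).1
  have k2 := hKAP G z x y Q R P h2 (v * Real.pi) (w * Real.pi) (u * Real.pi) (p0 v hv)
    (p1 v hv1) (p0 w hw) (p1 w hw1) ((mk_comm _ _).trans e2) ((mk_comm _ _).trans e3) e1
  have h3 : MT G y x z P R Q := (hMTY _ _ _ _ _ _ _ h).1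
  have k3 := hKAP G y x z P R Q h3 (u * Real.pi) (w * Real.pi) (v * Real.pi) (p0 u hu)
    (p1 u hu1) (p0 w hw) (p1 w hw1) ((mk_comm _ _).trans e1) e3 e2
  have h4 := hTRI _ _ _ (p0 u hu) (p1 u hu1) (p0 v hv) (p1 v hv1) (p0 w hw) (p1 w hw1) k1 k2 k3
  have h5 : ((u : ℝ) + v + w) * Real.pi ≤ 1 * Real.pi := by linarith
  have h6 : ((u : ℝ) + v + w) ≤ 1 := le_of_mul_le_mul_right h5 hpi
  exact_mod_cast h6

/-- the step: the first angle has numerator at least two -/
theorem step (hMTY : T_MTY) (hMTA : T_MTA) (hMTS : T_MTS) (hCRN : T_CRN) (hCRD : T_CRD)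
    (hKNV : T_KNV) (hKNS : T_KNS) (hKS2 : T_KS2)
    (hKS3 : T_KS3) (hKS4 : T_KS4) (hKS5 : T_KS5) {G : Submonoid (Module.End ℝ V4)}
    (hG : Proper G) (n : ℕ)
    (ih : ∀ x y z P Q R, (Cr G P Q R).ncard < n → Cls G x y z P Q R)
    {x y z : V4} {P Q R : H3} (hn : (Cr G P Q R).ncard = n) (h : MT G x y z P Q R)
    {u v w : ℚ} (hu : 0 < u) (hu1 : u < 1) (hv : 0 < v) (hv1 : v < 1) (hw : 0 < w)
    (hw1 : w < 1) (e1 : mk x y = cn u) (e2 : mk x z = cn v) (e3 : mk y z = cn w)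
    (hs : u + v + w ≤ 1) (h2 : 2 ≤ u.num) : Kn u v w := by
  obtain ⟨k, hk⟩ : ∃ k : ℕ, u.num = k := ⟨u.num.toNat, by omega⟩
  set N : ℕ := u.den with hN
  have hNpos : 0 < N := u.den_pos
  have hNQ : (0 : ℚ) < N := by exact_mod_cast hNpos
  have hk2 : 2 ≤ k := by omega
  have hcop : Nat.Coprime k N := by
    have h3 := u.reduced
    rw [hk] at h3
    exact h3
  have huk : u = (k : ℚ) / N := by
    have h3 := (Rat.num_div_den u).symm
    rw [hk, Int.cast_natCast] at h3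
    exact h3
  have hkN : k < N := by
    rw [huk, div_lt_one hNQ] at hu1
    exact_mod_cast hu1
  have hN3 : 3 ≤ N := by omega
  have hNR : (0 : ℝ) < N := by exact_mod_cast hNpos
  have e1' : mk x y = Real.cos (k * Real.pi / N) := by
    rw [e1, huk]
    unfold cn
    congr 1
    push_cast
    ring
  obtain ⟨t, S, s, r, hs0, hr0, eS, m1, m2, m3, m4, m5, T1, T2⟩ :=
    hMTS G x y z P Q R h k N hk2 hkN hcop e1'
  have T3 : MT G t z x S P Q := (hMTY _ _ _ _ _ _ _ (hMTY _ _ _ _ _ _ _ T1).1).2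
  obtain ⟨f, hf0, hf1, ef⟩ := hMTA G t z x S P Q hG T3
  have ef' : mk (-t) z = cn (1 - f) := by rw [mk_negl, ef, cn_sub]
  obtain ⟨c1, c2⟩ := hCRD G P Q R S t s r T1.uy T1.gy hs0 hr0 eS T1.Py T1.Ry m4 m5
  have hfin := hCRN G P Q R hG
  have d1 : (Cr G P Q S).ncard < n := by
    rw [← hn]
    exact Set.ncard_lt_ncard c1 hfin
  have d2 : (Cr G P S R).ncard < n := by
    rw [← hn]
    exact Set.ncard_lt_ncard c2 hfin
  have q1 : (0 : ℚ) < 1 / N := by positivity
  have q2 : (1 : ℚ) / N < 1 := by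
    rw [div_lt_one hNQ]
    exact_mod_cast (by omega : 1 < N)
  have hkQ : (2 : ℚ) ≤ k := by exact_mod_cast hk2
  have hkNQ : (k : ℚ) < N := by exact_mod_cast hkN
  have q3 : (0 : ℚ) < ((k : ℚ) - 1) / N := div_pos (by linarith) hNQ
  have q4 : ((k : ℚ) - 1) / N < 1 := by
    rw [div_lt_one hNQ]
    linarith
  have K1 : Kn (1 / N) v f := by
    refine ih x t z P Q S d1 T1 _ _ _ q1 q2 hv hv1 hf0 hf1 ?_ e2 ef
    rw [m1]
    unfold cn
    congr 1
    push_cast
    ring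
  have K2 : Kn (((k : ℚ) - 1) / N) (1 - f) w := by
    refine ih (-t) y z P S R d2 T2 _ _ _ q3 q4 (by linarith) (by linarith) hw hw1 ?_ ef' e3
    rw [m2]
    unfold cn
    congr 1
    push_cast
    ring
  have K2' : Kn (((k : ℚ) - 1) / N) w (1 - f) := (hKNS _ _ _ K2).2
  have rel : cn w * Real.sin (Real.pi / N) = Real.sin (k * Real.pi / N) * cn f +
      Real.sin (((k : ℝ) - 1) * Real.pi / N) * cn v := by
    rw [← e3, ← ef, ← e2, mk_comm y z, mk_comm t z, mk_comm x z]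
    linarith
  have hsum : (k : ℚ) / N + v + w ≤ 1 := by rw [← huk]; exact hs
  rw [huk]
  have key : KS f → Kn ((k : ℚ) / N) v w := fun hKS =>
    hKS N k v w hk2 hkN hcop K1 K2' hsum rel
  refine key ?_
  rcases hKNV _ _ _ _ f K1 K2' with hf | hf | hf | hf | hf
  · rw [hf]; exact hKS2
  · rw [hf]; exact hKS3
  · rw [hf]; exact hKS4
  · rw [hf]; exact hKS5.1
  · rw [hf]; exact hKS5.2

theorem num_one {u : ℚ} (hu : 0 < u) (hu1 : u < 1) (h : ¬ 2 ≤ u.num) :
    ∃ a : ℕ, 2 ≤ a ∧ u = 1 / a := by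
  have h1 : 0 < u.num := Rat.num_pos.2 hu
  have h2 : u.num = 1 := by omega
  have h3 : u = 1 / (u.den : ℚ) := by
    have h4 := (Rat.num_div_den u).symm
    rw [h2, Int.cast_one] at h4
    exact h4
  refine ⟨u.den, ?_, h3⟩
  by_contra hc
  have h5 : u.den = 1 := by
    have := u.den_pos
    omega
  rw [h3, h5] at hu1
  norm_num at hu1

theorem pf_KNP (hMTY : T_MTY) (hMTA : T_MTA) (hMTS : T_MTS) (hCRN : T_CRN) (hCRD : T_CRD)
    (hKAP : T_KAP) (hTRI : T_TRI) (hKNV : T_KNV) (hKNS : T_KNS) (hKS2 : T_KS2)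
    (hKS3 : T_KS3) (hKS4 : T_KS4) (hKS5 : T_KS5) : T_KNP := by
  intro G x y z P Q R hG
  have main : ∀ n : ℕ, ∀ x y z P Q R, (Cr G P Q R).ncard = n → Cls G x y z P Q R := by
    intro n
    induction n using Nat.strong_induction_on with
    | _ n IH =>
      intro x y z P Q R hn h u v w hu hu1 hv hv1 hw hw1 e1 e2 e3
      have ih : ∀ x y z P Q R, (Cr G P Q R).ncard < n → Cls G x y z P Q R :=
        fun x y z P Q R hlt => IH _ hlt x y z P Q R rfl
      have hs := sum_le hMTY hKAP hTRI h hu hu1 hv hv1 hw hw1 e1 e2 e3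
      have st := fun {x y z P Q R} hn h {u v w} => step hMTY hMTA hMTS hCRN hCRD hKNV hKNS hKS2
        hKS3 hKS4 hKS5 hG n ih (x := x) (y := y) (z := z) (P := P) (Q := Q) (R := R) hn h
        (u := u) (v := v) (w := w)
      by_cases c1 : 2 ≤ u.num
      · exact st hn h hu hu1 hv hv1 hw hw1 e1 e2 e3 hs c1
      by_cases c2 : 2 ≤ v.num
      · have h' : MT G x z y Q P R := (hMTY _ _ _ _ _ _ _ h).2
        have hn' : (Cr G Q P R).ncard = n := by
          have : Cr G Q P R = Cr G P Q R := by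
            unfold Cr
            rw [Set.insert_comm Q P]
          rw [this]
          exact hn
        have K := st hn' h' hv hv1 hu hu1 hw hw1 e2 e1 ((mk_comm _ _).trans e3)
          (by linarith) c2
        exact (hKNS _ _ _ K).1
      by_cases c3 : 2 ≤ w.num
      · have h' : MT G y z x R P Q := (hMTY _ _ _ _ _ _ _ (hMTY _ _ _ _ _ _ _ h).1).2
        have hn' : (Cr G R P Q).ncard = n := by
          have : Cr G R P Q = Cr G P Q R := by
            unfold Cr
            rw [Set.insert_comm R P, Set.pair_comm R Q]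
          rw [this]
          exact hn
        have K := st hn' h' hw hw1 hu hu1 hv hv1 e3 ((mk_comm _ _).trans e1)
          ((mk_comm _ _).trans e2) (by linarith) c3
        exact (hKNS _ _ _ (hKNS _ _ _ K).1).2
      · obtain ⟨a, ha, rfl⟩ := num_one hu hu1 c1
        obtain ⟨b, hb, rfl⟩ := num_one hv hv1 c2
        obtain ⟨c, hc, rfl⟩ := num_one hw hw1 c3
        exact ⟨hs, Or.inl (Or.inl ⟨a, b, c, ha, hb, hc, rfl, rfl, rfl⟩)⟩
  exact fun h => main _ x y z P Q R rfl h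

end Pool.Agent.H29.ODG
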