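import Pool.Agent.H50.ODG.Targets

/-!
# Two-orbit polyhedra with odd vertex degrees (MP_397744_co): row XA6

The triangle with the angles `π / 3`, `π / 7`, `2 π / 7`.
-/

set_option autoImplicit false

namespace Pool.Agent.H29.ODG.X

open Pool.Agent.H57.CP Pool.Agent.H39.TO Pool.Agent.H39.OD Pool.Agent.H50.ODG

theorem mk_comm (x y : V4) : mk x y = mk y x := by
  unfold mk
  ring

theorem mk_add (x y z : V4) : mk (x + y) z = mk x z + mk y z := by
  unfold mk
  simp only [Pi.add_apply]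
  ring

theorem mk_sub (x y z : V4) : mk (x - y) z = mk x z - mk y z := by
  unfold mk
  simp only [Pi.sub_apply]
  ring

theorem mk_smul (t : ℝ) (x z : V4) : mk (t • x) z = t * mk x z := by
  unfold mk
  simp only [Pi.smul_apply, smul_eq_mul]
  ring

theorem mk_neg' (x z : V4) : mk x (-z) = -mk x z := by
  unfold mk
  simp only [Pi.neg_apply]
  ring

theorem refl_eq (a x : V4) : refl a x = x + (2 * mk a x) • a := rfl

/-- the reflection is self-adjoint -/
theorem refl_adj (a x y : V4) : mk (refl a x) y = mk x (refl a y) := by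
  rw [refl_eq, refl_eq, mk_comm x, mk_add, mk_add, mk_smul, mk_smul, mk_comm x y, mk_comm a x]
  ring

theorem refl_refl {a : V4} (ha : mk a a = -1) (x : V4) : refl a (refl a x) = x := by
  have h1 : mk a (refl a x) = -mk a x := by
    rw [mk_comm, refl_eq, mk_add, mk_smul, mk_comm x a, ha]
    ring
  rw [refl_eq a (refl a x), h1, refl_eq]
  funext i
  simp only [Pi.add_apply, Pi.smul_apply, smul_eq_mul]
  ring

/-- conjugate reflections -/
theorem refl_conj {a : V4} (ha : mk a a = -1) (b : V4) :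
    (refl (refl a b) : Module.End ℝ V4) = refl a * refl b * refl a := by
  refine LinearMap.ext fun v => ?_
  show refl (refl a b) v = refl a (refl b (refl a v))
  rw [refl_eq b, map_add, refl_refl ha, map_smul, refl_eq (refl a b), refl_adj]

theorem cn_third : cn (1 / 3) = 1 / 2 := by
  unfold cn
  rw [← Real.cos_pi_div_three]
  congr 1
  push_cast
  ring

theorem pf_XA6 (hXA4 : T_XA4) (hC7 : T_C7) (hVSR : T_VSR) (hLOR : T_LOR) (hMKI : T_MKI)
    (hCFI : T_CFI) : T_XA6 := by
  have _ := hCFI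
  intro x x' n0 n1 n2 H
  obtain ⟨c, _, cub, c9, _, k1, k2, k3, _⟩ := hC7
  have hc : (0 : ℝ) < c := by linarith
  have hc0 : c ≠ 0 := hc.ne'
  have hq : (0 : ℝ) < 2 * c ^ 2 - 1 := by nlinarith
  have hq0 : 2 * c ^ 2 - 1 ≠ 0 := hq.ne'
  have u0 := H.u0
  have u1 := H.u1
  have u2 := H.u2
  have e02 : mk n0 n2 = 1 / 2 := H.e02.trans cn_third
  have e12 : mk n1 n2 = c := H.e12.trans k1
  have e01 : mk n0 n1 = 2 * c ^ 2 - 1 := H.e01.trans k2
  have e20 : mk n2 n0 = 1 / 2 := (mk_comm _ _).trans e02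
  have e21 : mk n2 n1 = c := (mk_comm _ _).trans e12
  have e10 : mk n1 n0 = 2 * c ^ 2 - 1 := (mk_comm _ _).trans e01
  set d : ℝ := 4 * c ^ 3 - 3 * c with hd
  set m : V4 := (1 / (2 * c)) • (n1 - n0) with hm
  have mn0 : mk m n0 = c := by
    rw [hm, mk_smul, mk_sub, e10, u0]
    field_simp
    ring
  have mn1 : mk m n1 = -c := by
    rw [hm, mk_smul, mk_sub, e01, u1]
    field_simp
    ring
  have mn2 : mk m n2 = d := by
    rw [hm, mk_smul, mk_sub, e12, e02, hd, div_mul_eq_mul_div, one_mul,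
      div_eq_iff (by positivity)]
    linear_combination (-(1 / 2 : ℝ) - c) * cub
  have mm : mk m m = -1 := by
    have h1 : mk m m = (1 / (2 * c)) * (mk m n1 - mk m n0) := by
      conv_lhs => rw [hm, mk_smul, mk_sub, mk_comm n1, mk_comm n0]
    rw [h1, mn0, mn1]
    field_simp
    ring
  have nm : n1 = n0 + (2 * c) • m := by
    rw [hm, smul_smul, mul_one_div_cancel (by positivity), one_smul]
    abel
  set n5 : V4 := (-(1 / (2 * (2 * c ^ 2 - 1)))) • (m + n2) with hn5
  have hqq : 1 - d = 2 * (2 * c ^ 2 - 1) ^ 2 := by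
    rw [hd]
    linear_combination (-c - 1) * cub
  have f2 : mk n5 n2 = 2 * c ^ 2 - 1 := by
    have h1 : mk n5 n2 = (1 - d) / (2 * (2 * c ^ 2 - 1)) := by
      rw [hn5, mk_smul, mk_add, mn2, u2]
      ring
    rw [h1, hqq, div_eq_iff (by positivity)]
    ring
  have fm : mk n5 m = 2 * c ^ 2 - 1 := by
    have h1 : mk n5 m = (1 - d) / (2 * (2 * c ^ 2 - 1)) := by
      rw [hn5, mk_smul, mk_add, mm, mk_comm n2, mn2]
      ring
    rw [h1, hqq, div_eq_iff (by positivity)]
    ring
  have f1 : mk n5 n1 = 0 := by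
    rw [hn5, mk_smul, mk_add, mn1, e21, neg_add_cancel, mul_zero]
  have f5 : mk n5 n5 = -1 := by
    have h1 : mk n5 n5 = (-(1 / (2 * (2 * c ^ 2 - 1)))) * (mk n5 m + mk n5 n2) := by
      conv_lhs => rw [hn5, mk_smul, mk_add, mk_comm m, mk_comm n2]
    rw [h1, f2, fm]
    field_simp
    ring
  have r2 : refl n5 n2 = -m := by
    rw [refl_eq, f2]
    have h1 : (2 * (2 * c ^ 2 - 1)) • n5 = -(m + n2) := by
      rw [hn5, smul_smul]
      have h2 : 2 * (2 * c ^ 2 - 1) * -(1 / (2 * (2 * c ^ 2 - 1))) = (-1 : ℝ) := by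
        field_simp
      rw [h2, neg_smul, one_smul]
    rw [h1]
    abel
  have rm : refl n5 m = -n2 := by
    have h1 := refl_refl f5 n2
    rw [r2, map_neg] at h1
    rw [← h1, neg_neg]
  have r1 : refl n5 n1 = n1 := by rw [refl_eq, f1, mul_zero, zero_smul, add_zero]
  obtain ⟨G5, hG5, hE5⟩ := hMKI _ (hLOR.2.2 n5 f5).1
  set r : H3 := G5 x' with hr
  have er : r.1 = refl n5 x'.1 := (hE5 x').symm
  have s1 : mk r.1 n1 = 0 := by rw [er, refl_adj, r1]; exact H.yb
  have sm : mk r.1 m = 0 := by rw [er, refl_adj, rm, mk_neg', H.yc, neg_zero]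
  have s0 : mk r.1 n0 = 0 := by
    have h1 : n0 = n1 - (2 * c) • m := by rw [nm]; abel
    rw [h1, mk_comm, mk_sub, mk_smul, mk_comm n1, mk_comm m, s1, sm]
    ring
  have mx : ∀ X : V4, mk X m = (1 / (2 * c)) * (mk X n1 - mk X n0) := by
    intro X
    rw [mk_comm X m, mk_comm X n1, mk_comm X n0, hm, mk_smul, mk_sub]
  have hC : Cf (1 / 3) (1 / (7 : ℕ)) (3 / (7 : ℕ)) x r n2 m n0 := by
    refine ⟨u2, mm, u0, e20.trans cn_third.symm, ?_, ?_, H.xc, H.xa, sm, s0, ?_, ?_⟩
    · rw [mn0, ← k1]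
      norm_num
    · rw [mk_comm, mn2, ← k3]
      norm_num
    · rw [mx, H.xa, sub_zero]
      exact mul_neg_of_pos_of_neg (by positivity) H.xb
    · rw [er, refl_adj, r2, mk_neg', mx, H.yb, zero_sub, mul_neg, neg_neg]
      exact mul_neg_of_pos_of_neg (by positivity) H.ya
  have hV := hXA4 7 x r n2 m n0 le_rfl hC
  unfold XV at hV ⊢
  have j1 : refl m n0 = n1 := by rw [refl_eq, mn0, nm]
  have j0 : refl m n1 = n0 := by rw [← j1, refl_refl mm]
  have g1 : (refl n1 : Module.End ℝ V4) =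
      (refl m : Module.End ℝ V4) * (refl n0 : Module.End ℝ V4) * (refl m : Module.End ℝ V4) := by
    rw [← refl_conj mm, j1]
  have g0 : (refl n0 : Module.End ℝ V4) =
      (refl m : Module.End ℝ V4) * (refl n1 : Module.End ℝ V4) * (refl m : Module.End ℝ V4) := by
    rw [← refl_conj mm, j0]
  have hCC : C2 m n0 = C2 m n1 := by
    refine le_antisymm ?_ ?_
    · refine Submonoid.closure_le.2 ?_
      rintro g (hg | hg)
      · rw [hg]
        exact Submonoid.subset_closure (Or.inl rfl)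
      · rw [Set.mem_singleton_iff.1 hg, g0]
        exact mul_mem (mul_mem (Submonoid.subset_closure (Or.inl rfl))
          (Submonoid.subset_closure (Or.inr rfl))) (Submonoid.subset_closure (Or.inl rfl))
    · refine Submonoid.closure_le.2 ?_
      rintro g (hg | hg)
      · rw [hg]
        exact Submonoid.subset_closure (Or.inl rfl)
      · rw [Set.mem_singleton_iff.1 hg, g1]
        exact mul_mem (mul_mem (Submonoid.subset_closure (Or.inl rfl))
          (Submonoid.subset_closure (Or.inr rfl))) (Submonoid.subset_closure (Or.inl rfl))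
  rw [hCC] at hV
  -- the reflection in `n5` is in the group
  have G2 : (refl n2 : Module.End ℝ V4) ∈ Gam n2 m n0 :=
    Submonoid.subset_closure (Or.inl rfl)
  have Gm : (refl m : Module.End ℝ V4) ∈ Gam n2 m n0 :=
    Submonoid.subset_closure (Or.inr (Or.inl rfl))
  have G0 : (refl n0 : Module.End ℝ V4) ∈ Gam n2 m n0 :=
    Submonoid.subset_closure (Or.inr (Or.inr rfl))
  set y : V4 := refl m n2 with hy
  have yy : mk y y = -1 := by rw [hy, refl_adj, refl_refl mm, u2]
  have Gy : (refl y : Module.End ℝ V4) ∈ Gam n2 m n0 := by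
    rw [hy, refl_conj mm]
    exact mul_mem (mul_mem Gm G2) Gm
  have dd : 2 * d ^ 2 - 1 = -c := by
    rw [hd]
    linear_combination (4 * c ^ 3 + 2 * c ^ 2 - 3 * c - 1) * cub
  have y5 : refl y n2 = n5 := by
    have h1 : mk y n2 = -c := by
      rw [hy, refl_eq, mk_add, mk_smul, mn2, u2, ← dd]
      ring
    have h2 : (1 : ℝ) / (2 * (2 * c ^ 2 - 1)) = 2 * c - 1 := by
      rw [div_eq_iff (by positivity)]
      linear_combination (-1 : ℝ) * cub
    have h3 : 4 * c * d = 2 * c - 1 := by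
      rw [hd]
      linear_combination (2 * c + 1) * cub
    rw [refl_eq, h1, hy, refl_eq, mn2, hn5, h2]
    funext i
    simp only [Pi.add_apply, Pi.smul_apply, smul_eq_mul]
    linear_combination (-(m i)) * h3
  have G5m : (refl n5 : Module.End ℝ V4) ∈ Gam n2 m n0 := by
    rw [← y5, refl_conj yy]
    exact mul_mem (mul_mem Gy G2) Gy
  have hx' : x'.1 = refl n5 r.1 := by rw [er, refl_refl f5]
  have hW := hVSR.2.2.1 _ _ m n1 n5 x r x' f5 G5m hx' hV
  rw [rm, r1, (hVSR.2.2.2 n2 n1).2, (hVSR.2.2.2 n2 n1).1, (hVSR.2.2.2 n2 n0).1] at hW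
  refine hVSR.1 _ _ _ _ _ _ ?_ hW
  refine Submonoid.closure_le.2 ?_
  rintro g (hg | hg | hg)
  · rw [hg]
    exact G0
  · rw [hg, g1]
    exact mul_mem (mul_mem Gm G0) Gm
  · rw [Set.mem_singleton_iff.1 hg]
    exact G2

end Pool.Agent.H29.ODG.X
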